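import Pool.Agent.Lib.MP_764a00_al.Main

/-!
# MP_764a00_al : the negative answer is consistent with ZFC

There is a countable transitive model of `ZFC` in which the answer to Conrad's question is
negative: it contains a torsion-free abelian group without Archimedean lattice orders.
-/

namespace Pool.Agent.Results.MP_764a00_al.ConsistentlyNo

open Pool.Agent.CR (V IsTransModelZFC)
open Pool.Agent.CNW (Q1)

theorem result : ∃ N : Set V, N.Countable ∧ IsTransModelZFC N ∧ ¬ Q1 N :=
  Pool.Agent.CNW.t_B

end Pool.Agent.Results.MP_764a00_al.ConsistentlyNo
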