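import Pool.Agent.Lib.MP_764a00_al.MainTwo

set_option autoImplicit false

namespace Pool.Agent.Results.MP_764a00_al.HomogeneousSummand

/-- Let `R` be a subgroup of the rationals and `A` a torsion-free abelian group in which every
nonzero element lies in a pure subgroup isomorphic to `R` (a homogeneous group of type `R`).
Then for every subgroup `G` of `A` and every index set `ι` with at least as many elements as `A`,
the direct sum of `G` and of `ι` copies of `R` has a translation-invariant Archimedean lattice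
order. -/
theorem result (R : AddSubgroup ℚ) (A : Type) [AddCommGroup A]
    (hA : ∀ g : A, ∀ n : ℕ, n ≠ 0 → n • g = 0 → g = 0)
    (hhom : ∀ a : A, a ≠ 0 → ∃ φ : R →+ A, Function.Injective φ ∧ a ∈ φ.range ∧
      ∀ (n : ℕ) (x : A), n ≠ 0 → n • x ∈ φ.range → x ∈ φ.range)
    (G : AddSubgroup A) (ι : Type) (hι : Nonempty (A ↪ ι)) :
    ∃ _ : Lattice (G × (ι →₀ R)),
      (∀ a b c : G × (ι →₀ R), a ≤ b → c + a ≤ c + b) ∧
      (∀ a b : G × (ι →₀ R), (∀ n : ℕ, n • a ≤ b) → a ≤ 0) :=
  Pool.MP_764a00_al.Arch.main_two R hA hhom G ι hι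

end Pool.Agent.Results.MP_764a00_al.HomogeneousSummand
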