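import Pool.Agent.Lib.MP_764a00_al.MainOneB

set_option autoImplicit false

namespace Pool.Agent.Results.MP_764a00_al.PowerSummand

/-- Let `H` be a torsion-free abelian group, `ι` an index set with at least as many elements
as `H`, and `G` any subgroup of the direct sum of `ι` copies of `H`. Then the direct sum of `G`
and of `ι` copies of `H` has a translation-invariant Archimedean lattice order. -/
theorem result (H : Type) [AddCommGroup H]
    (hH : ∀ g : H, ∀ n : ℕ, n ≠ 0 → n • g = 0 → g = 0)
    (ι : Type) (hι : Nonempty (H ↪ ι)) (G : AddSubgroup (ι →₀ H)) :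
    ∃ _ : Lattice (G × (ι →₀ H)),
      (∀ a b c : G × (ι →₀ H), a ≤ b → c + a ≤ c + b) ∧
      (∀ a b : G × (ι →₀ H), (∀ n : ℕ, n • a ≤ b) → a ≤ 0) :=
  Pool.MP_764a00_al.Arch.main_one_b hH ι hι G

end Pool.Agent.Results.MP_764a00_al.PowerSummand
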