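import Pool.Agent.Lib.MP_764a00_al.Main

/-!
# MP_764a00_al : a counterexample from one instance of the generalised continuum hypothesis

If `2 ^ lam = lam⁺` for one uncountable strong limit cardinal `lam` of countable cofinality then
the answer to Conrad's question is negative.
-/

namespace Pool.Agent.Results.MP_764a00_al.StrongLimit

open Cardinal

theorem result : ∀ lam : Cardinal.{0}, lam.IsStrongLimit → ℵ₀ < lam → lam.ord.cof = ℵ₀ →
    2 ^ lam = Order.succ lam → ∃ (G : Type) (_ : AddCommGroup G),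
      (∀ g : G, ∀ n : ℕ, n ≠ 0 → n • g = 0 → g = 0) ∧
      ¬ ∃ _ : Lattice G, (∀ a b c : G, a ≤ b → c + a ≤ c + b) ∧
        ∀ a b : G, (∀ n : ℕ, n • a ≤ b) → a ≤ 0 :=
  Pool.Agent.CN.t_A

end Pool.Agent.Results.MP_764a00_al.StrongLimit
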